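import Mathlib

namespace Pool.Agent.Results.MP_c087c9_gt.HalfLine

open scoped ENNReal NNReal

/-- The surjective span `σ*(X)`, a number in `[0, ∞]`. -/
noncomputable def surjSpan (X : Type) [MetricSpace X] : ℝ≥0∞ :=
  sSup {a : ℝ≥0∞ | ∃ C : Set (X × X), IsConnected C ∧
    (Prod.fst '' C = Set.univ ∧ Prod.snd '' C = Set.univ) ∧ ∀ p ∈ C, a ≤ edist p.1 p.2}

/-- The surjective semi-span `σ₀*(X)`, a number in `[0, ∞]`. -/
noncomputable def surjSemiSpan (X : Type) [MetricSpace X] : ℝ≥0∞ :=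
  sSup {a : ℝ≥0∞ | ∃ C : Set (X × X), IsConnected C ∧
    (Prod.fst '' C = Set.univ ∨ Prod.snd '' C = Set.univ) ∧ ∀ p ∈ C, a ≤ edist p.1 p.2}

theorem conn : ConnectedSpace ℝ≥0 :=
  isConnected_iff_connectedSpace.mp (isConnected_Ici (a := (0 : ℝ)))

theorem span_zero : surjSpan ℝ≥0 = 0 := by
  refine le_antisymm (sSup_le ?_) bot_le
  rintro a ⟨C, hC, ⟨h1, h2⟩, h⟩
  obtain ⟨p, hp, hp0⟩ : (0 : ℝ≥0) ∈ Prod.fst '' C := h1 ▸ Set.mem_univ _
  obtain ⟨q, hq, hq0⟩ : (0 : ℝ≥0) ∈ Prod.snd '' C := h2 ▸ Set.mem_univ _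
  obtain ⟨r, hr, hr'⟩ := hC.isPreconnected.intermediate_value₂ hp hq
    (f := Prod.fst) (g := Prod.snd) continuous_fst.continuousOn continuous_snd.continuousOn
    (by rw [hp0]; exact bot_le) (by rw [hq0]; exact bot_le)
  have := h r hr
  rw [hr', edist_self] at this
  exact this

theorem semi_top : surjSemiSpan ℝ≥0 = ⊤ := by
  haveI := conn
  refine ENNReal.eq_top_of_forall_nnreal_le fun a => le_sSup ?_
  refine ⟨Set.range (fun x : ℝ≥0 => (x, x + a)), isConnected_range (by fun_prop), Or.inl ?_, ?_⟩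
  · ext x
    simp
  · rintro p ⟨x, rfl⟩
    rw [edist_nndist, ENNReal.coe_le_coe, ← NNReal.coe_le_coe, coe_nndist, NNReal.dist_eq]
    simp

theorem result : ∃ (X : Type) (_ : MetricSpace X), ConnectedSpace X ∧
    surjSpan X = 0 ∧ surjSemiSpan X = ⊤ ∧ 2 * surjSpan X < surjSemiSpan X :=
  ⟨ℝ≥0, inferInstance, conn, span_zero, semi_top, by rw [span_zero, semi_top]; simp⟩

end Pool.Agent.Results.MP_c087c9_gt.HalfLine
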